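import Pool.Agent.Lib.MP_b1a3a4_al.MVS.HO.Iface

/-!
# Module FININD (10.8), backup
-/

set_option linter.all false

namespace Pool.Agent.Lib.MP_b1a3a4_al.MVS.HO.H45

theorem finind (hR : RetrStatement) : FinIndStatement := by
  intro K S Q _ _ _ _ j π hses
  choose s hs using hses.surj
  have hex : ∀ x : S, ∃ κ : K, j κ = x * (s (π x))⁻¹ := by
    intro x
    rw [← hses.ex]
    rw [map_mul, map_inv, hs, mul_inv_cancel]
  choose ι₀ hι₀ using hex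
  -- controls
  have ctl_j : ∀ E : Set K, E.Finite → ∃ F : Set S, F.Finite ∧
      ∀ y z : K, y⁻¹ * z ∈ E → (j y)⁻¹ * j z ∈ F := by
    intro E hE
    exact ⟨j '' E, hE.image _, fun y z h => ⟨_, h, by simp⟩⟩
  have ctl_ι : ∀ β : K, ∀ E : Set S, E.Finite → ∃ F : Set K, F.Finite ∧
      ∀ y z : S, y⁻¹ * z ∈ E → (ι₀ y * β)⁻¹ * (ι₀ z * β) ∈ F := by
    intro β E hE
    refine ⟨j ⁻¹' ((fun p : (Q × Q) × S => (j β)⁻¹ * s p.1.1 * p.2 * (s p.1.2)⁻¹ * j β) ''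
      (Set.univ ×ˢ E)), ?_, ?_⟩
    · exact ((Set.finite_univ.prod hE).image _).preimage (hses.inj.injOn)
    · intro y z h
      refine ⟨((π y, π z), y⁻¹ * z), ⟨Set.mem_univ _, h⟩, ?_⟩
      simp only [map_mul, map_inv, hι₀]
      group
  have close_S : ∀ β : K, ∃ B : Set S, B.Finite ∧ ∀ y : S, y⁻¹ * j (ι₀ y * β) ∈ B := by
    intro β
    refine ⟨Set.range (fun q => (s q)⁻¹ * j β), Set.finite_range _, fun y => ⟨π y, ?_⟩⟩
    simp only [map_mul, hι₀]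
    group
  have close_K : ∀ β : K, ∃ B : Set K, B.Finite ∧ ∀ y : K, y⁻¹ * (ι₀ (j y) * β) ∈ B := by
    intro β
    refine ⟨j ⁻¹' {(s 1)⁻¹ * j β}, (Set.finite_singleton _).preimage (hses.inj.injOn),
      fun y => ?_⟩
    show j (y⁻¹ * (ι₀ (j y) * β)) = (s 1)⁻¹ * j β
    have : π (j y) = 1 := (hses.ex _).2 ⟨y, rfl⟩
    simp only [map_mul, map_inv, hι₀, this]
    group
  have up1 : ∀ (Y : Set K) (Y' : Set S) (β : K), (∀ y ∈ Y, j y ∈ Y') →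
      (∀ y ∈ Y', ι₀ y * β ∈ Y) → (CSC Y → CSC Y') ∧ (CC Y → CC Y') := by
    intro Y Y' β h1 h2
    refine hR K S Y Y' j (fun y => ι₀ y * β) h1 h2 ?_ ?_ ?_
    · intro E hE
      obtain ⟨F, hF, hF'⟩ := ctl_j E hE
      exact ⟨F, hF, fun y _ z _ h => hF' y z h⟩
    · intro E hE
      obtain ⟨F, hF, hF'⟩ := ctl_ι β E hE
      exact ⟨F, hF, fun y _ z _ h => hF' y z h⟩
    · obtain ⟨B, hB, hB'⟩ := close_S β
      exact ⟨B, hB, fun y _ => hB' y⟩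
  have up2 : ∀ (Y : Set K) (Y' : Set S) (β : K), (∀ y ∈ Y, j y ∈ Y') →
      (∀ y ∈ Y', ι₀ y * β ∈ Y) → (CSC Y' → CSC Y) ∧ (CC Y' → CC Y) := by
    intro Y Y' β h1 h2
    refine hR S K Y' Y (fun y => ι₀ y * β) j h2 h1 ?_ ?_ ?_
    · intro E hE
      obtain ⟨F, hF, hF'⟩ := ctl_ι β E hE
      exact ⟨F, hF, fun y _ z _ h => hF' y z h⟩
    · intro E hE
      obtain ⟨F, hF, hF'⟩ := ctl_j E hE
      exact ⟨F, hF, fun y _ z _ h => hF' y z h⟩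
    · obtain ⟨B, hB, hB'⟩ := close_K β
      exact ⟨B, hB, fun y _ => hB' y⟩
  constructor
  · have a := up1 Set.univ Set.univ 1 (fun _ _ => Set.mem_univ _) (fun _ _ => Set.mem_univ _)
    have b := up2 Set.univ Set.univ 1 (fun _ _ => Set.mem_univ _) (fun _ _ => Set.mem_univ _)
    exact ⟨fun h => ⟨a.2 h.1, a.1 h.2⟩, fun h => ⟨b.2 h.1, b.1 h.2⟩⟩
  · rintro χ ⟨κ, hκ⟩
    obtain ⟨C, hC⟩ := (Set.finite_range (fun q => val χ (s q))).bddAbove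
    obtain ⟨N, hN⟩ := exists_nat_gt (C / val χ (j κ))
    rw [div_lt_iff₀ hκ] at hN
    have h1 : ∀ y ∈ up (val (χ.res j)) 0, j y ∈ up (val χ) 0 := fun y hy => hy
    have h2 : ∀ y ∈ up (val χ) 0, ι₀ y * κ ^ N ∈ up (val (χ.res j)) 0 := by
      intro y hy
      show 0 ≤ val χ (j (ι₀ y * κ ^ N))
      have hy' : 0 ≤ val χ y := hy
      have h3 : val χ (s (π y)) ≤ C := hC ⟨π y, rfl⟩
      rw [map_mul, hι₀, map_pow]
      simp only [val_mul, val_inv, val_pow]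
      linarith
    have a := up1 _ _ (κ ^ N) h1 h2
    have b := up2 _ _ (κ ^ N) h1 h2
    exact ⟨fun h => ⟨a.2 h.1, a.1 h.2⟩, fun h => ⟨b.2 h.1, b.1 h.2⟩⟩

end Pool.Agent.Lib.MP_b1a3a4_al.MVS.HO.H45
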