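import Pool.Agent.Lib.MP_b1a3a4_al.MVS.HO.Iface

/-!
# Module LAG (10.9), backup
-/

set_option linter.all false

namespace Pool.Agent.Lib.MP_b1a3a4_al.MVS.HO.H45

lemma exists_large {G : Type} [Group G] (χ : Chr G) {b : G} (hb : 0 < val χ b) (D : ℝ) :
    ∃ β : G, D ≤ val χ β ∧ 0 ≤ val χ β := by
  obtain ⟨N, hN⟩ := exists_nat_gt (D / val χ b)
  rw [div_lt_iff₀ hb] at hN
  refine ⟨b ^ N, ?_, ?_⟩
  · rw [val_pow]; exact hN.le
  · rw [val_pow]; positivity

theorem lag : LagStatement := by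
  intro G _ χ ⟨b, hb⟩
  constructor
  · intro hyp E hE
    obtain ⟨E₁, D, hE₁, hE₁'⟩ := hyp E hE
    obtain ⟨β, hβ, hβ0⟩ := exists_large χ hb D
    set E' : Set G := {1, β, β⁻¹} ∪ E ∪ (fun x => β⁻¹ * x * β) '' E₁ ∪
      (fun x => β⁻¹ * x * β) '' E ∪ (fun x => x * β) '' E with hE'
    have h1 : (1 : G) ∈ E' := by simp [hE']
    have hβE' : β ∈ E' := by simp [hE']
    have hβiE' : β⁻¹ ∈ E' := by simp [hE']
    have hEE' : E ⊆ E' := fun x hx => by simp [hE', hx]
    have hc1 : ∀ x ∈ E₁, β⁻¹ * x * β ∈ E' := fun x hx => Or.inl (Or.inl (Or.inr ⟨x, hx, rfl⟩))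
    have hc2 : ∀ x ∈ E, β⁻¹ * x * β ∈ E' := fun x hx => Or.inl (Or.inr ⟨x, hx, rfl⟩)
    have hc3 : ∀ x ∈ E, x * β ∈ E' := fun x hx => Or.inr ⟨x, hx, rfl⟩
    refine ⟨E', ((((Set.toFinite _).union hE).union (hE₁.image _)).union (hE.image _)).union
      (hE.image _), ?_⟩
    intro H _ c hc
    have hval : ∀ g, val χ (β⁻¹ * g * β) = val χ g := by
      intro g; simp only [val_mul, val_inv]; ring
    obtain ⟨f, hf⟩ := hE₁' H (fun g h => c (β⁻¹ * g * β) (β⁻¹ * h * β)) (by
      intro g hg h hh k hk h1 h2 h3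
      refine hc _ ?_ _ ?_ _ ?_ ?_ ?_ ?_
      · show 0 ≤ val χ (β⁻¹ * g * β); rw [hval]; exact hg
      · show 0 ≤ val χ (β⁻¹ * h * β); rw [hval]; exact hh
      · show 0 ≤ val χ (β⁻¹ * k * β); rw [hval]; exact hk
      · have := hc1 _ h1; convert this using 1; group
      · have := hc1 _ h2; convert this using 1; group
      · have := hc1 _ h3; convert this using 1; group)
    refine ⟨fun x => f (β * x) * (c x (x * β))⁻¹, ?_⟩
    intro x hx y hy hxy
    have hxβ : x * β ∈ up (val χ) 0 := by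
      show 0 ≤ val χ (x * β)
      have : 0 ≤ val χ x := hx
      rw [val_mul]; linarith
    have hyβ : y * β ∈ up (val χ) 0 := by
      show 0 ≤ val χ (y * β)
      have : 0 ≤ val χ y := hy
      rw [val_mul]; linarith
    have e1 : c (x * β) (y * β) = (f (β * x))⁻¹ * f (β * y) := by
      have := hf (β * x) (by
        show D ≤ val χ (β * x)
        have : 0 ≤ val χ x := hx
        rw [val_mul]; linarith) (β * y) (by
        show D ≤ val χ (β * y)
        have : 0 ≤ val χ y := hy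
        rw [val_mul]; linarith) (by
        have h : (β * x)⁻¹ * (β * y) = x⁻¹ * y := by group
        rw [h]; exact hxy)
      simpa [mul_assoc] using this
    have m1 : x⁻¹ * (x * β) ∈ E' := by simpa using hβE'
    have m2 : y⁻¹ * (y * β) ∈ E' := by simpa using hβE'
    have m3 : (x * β)⁻¹ * (y * β) ∈ E' := by
      have := hc2 _ hxy; convert this using 1; group
    have m4 : x⁻¹ * (y * β) ∈ E' := by
      have := hc3 _ hxy; convert this using 1; group
    have m5 : (y * β)⁻¹ * y ∈ E' := by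
      have h : (y * β)⁻¹ * y = β⁻¹ := by group
      rw [h]; exact hβiE'
    have e2 := hc x hx _ hxβ _ hyβ m1 m3 m4
    have e3 := hc x hx _ hyβ y hy m4 m5 (hEE' hxy)
    have e4 := hc.symm h1 hy hyβ m2 m5
    rw [← e3, ← e2, e1, e4]
    show _ = (f (β * x) * (c x (x * β))⁻¹)⁻¹ * (f (β * y) * (c y (y * β))⁻¹)
    group
  · rintro ⟨E, D, hE, hconn⟩
    obtain ⟨β, hβ, hβ0⟩ := exists_large χ hb D
    set E' : Set G := {β, β⁻¹} ∪ (fun x => β⁻¹ * x * β) '' E with hE'
    refine ⟨E', (Set.toFinite _).union (hE.image _), ?_⟩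
    intro x hx y hy
    have hx' : 0 ≤ val χ x := hx
    have hy' : 0 ≤ val χ y := hy
    have hval : ∀ g, val χ (β⁻¹ * g * β) = val χ g := by
      intro g; simp only [val_mul, val_inv]; ring
    have h0 := hconn (β * x) (by show D ≤ val χ (β * x); rw [val_mul]; linarith) (β * y)
      (by show D ≤ val χ (β * y); rw [val_mul]; linarith)
    have h2 : ∀ u v, Conn E (up (val χ) 0) u v →
        Conn E' (up (val χ) 0) (β⁻¹ * u * β) (β⁻¹ * v * β) := by
      intro u v h
      induction h with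
      | refl => exact Conn.rfl'
      | @tail p q _ hab ih =>
        refine Relation.ReflTransGen.tail ih ⟨?_, ?_, ?_⟩
        · show 0 ≤ val χ (β⁻¹ * p * β); rw [hval]; exact hab.1
        · show 0 ≤ val χ (β⁻¹ * q * β); rw [hval]; exact hab.2.1
        · exact Or.inr ⟨_, hab.2.2, by group⟩
    have h3 := h2 _ _ h0
    have e1 : β⁻¹ * (β * x) * β = x * β := by group
    have e2 : β⁻¹ * (β * y) * β = y * β := by group
    rw [e1, e2] at h3
    have hxβ : x * β ∈ up (val χ) 0 := by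
      show 0 ≤ val χ (x * β)
      rw [val_mul]; linarith
    have hyβ : y * β ∈ up (val χ) 0 := by
      show 0 ≤ val χ (y * β)
      rw [val_mul]; linarith
    have h4 : Conn E' (up (val χ) 0) x (x * β) :=
      Relation.ReflTransGen.single ⟨hx, hxβ, by simp [hE']⟩
    have h5 : Conn E' (up (val χ) 0) (y * β) y :=
      Relation.ReflTransGen.single ⟨hyβ, hy, by
        have h : (y * β)⁻¹ * y = β⁻¹ := by group
        rw [h]; simp [hE']⟩
    exact (h4.trans h3).trans h5

end Pool.Agent.Lib.MP_b1a3a4_al.MVS.HO.H45
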