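import Pool.Agent.Lib.MP_b1a3a4_al.MVS.HO.Iface

/-!
# Module LEMX (10.26)
-/

set_option linter.all false

namespace Pool.Agent.Lib.MP_b1a3a4_al.MVS.HO.H45

section aux

variable {G : Type} [Group G] {E E' Z Z' : Set G}

lemma rv_rv (w : List G) : rv (rv w) = w := by
  induction w with
  | nil => rfl
  | cons x w ih => rw [rv_cons, rv_append, ih]; simp [rv]

lemma exists_bound (f : G → ℝ) {F : Set G} (hF : F.Finite) : ∃ C : ℝ, 0 ≤ C ∧ ∀ x ∈ F, -C ≤ f x := by
  obtain ⟨C, hC⟩ := (hF.image (fun x => -f x)).bddAbove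
  refine ⟨max C 0, le_max_right _ _, fun x hx => ?_⟩
  have := hC ⟨x, hx, rfl⟩
  have h2 := le_max_left C 0
  linarith

lemma path_bound (f : G → ℝ) {g : G} {w : List G} (h : ∀ x ∈ w, x ∈ E) :
    ∃ C : ℝ, 0 ≤ C ∧ InPath E (up f (-C)) g w := by
  induction w generalizing g with
  | nil =>
    refine ⟨|f g|, abs_nonneg _, ?_⟩
    show -|f g| ≤ f g
    exact neg_abs_le _
  | cons x w ih =>
    obtain ⟨C, hC, hp⟩ := ih (g := g * x) (fun y hy => h y (by simp [hy]))
    refine ⟨max C |f g|, le_trans hC (le_max_left _ _), ?_, h x (by simp), ?_⟩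
    · show -(max C |f g|) ≤ f g
      have h1 := le_max_right C |f g|
      have h2 := neg_abs_le (f g)
      linarith
    · exact hp.mono le_rfl (up_mono (by have := le_max_left C |f g|; linarith))

lemma finite_bound {X : Type} {S : Set X} (hS : S.Finite) {P : X → ℝ → Prop}
    (hP : ∀ x ∈ S, ∃ C, P x C) (hm : ∀ x C C', C ≤ C' → P x C → P x C') :
    ∃ C : ℝ, 0 ≤ C ∧ ∀ x ∈ S, P x C := by
  choose! C hC using hP
  obtain ⟨C', hC'⟩ := (hS.image C).bddAbove
  refine ⟨max C' 0, le_max_right _ _, fun x hx => ?_⟩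
  exact hm x _ _ ((hC' ⟨x, hx, rfl⟩).trans (le_max_left _ _)) (hC x hx)

lemma SameHol.mid {g : G} {u w w' v : List G} (h : SameHol E Z (g * u.prod) w w')
    (hp : w.prod = w'.prod) : SameHol E Z g (u ++ w ++ v) (u ++ w' ++ v) :=
  SameHol.append_right h.append_left (by simp [hp])

lemma cj_prod (y : G) (k : List G) : (cj y k).prod = y⁻¹ * k.prod * y := by
  induction k with
  | nil => simp [cj]
  | cons x k ih =>
    have : cj y (x :: k) = (y⁻¹ * x * y) :: cj y k := rfl
    rw [this, List.prod_cons, ih, List.prod_cons]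
    group

lemma cj_path (χ : Chr G) (y : G) {EK E₁ : Set G} (hE₁ : ∀ e ∈ EK, y⁻¹ * e * y ∈ E₁) {k : List G}
    {g g' : G} {h : ℝ} (hg : val χ g = val χ g') (hk : InPath EK (up (val χ) h) g k) :
    InPath E₁ (up (val χ) h) g' (cj y k) := by
  induction k generalizing g g' with
  | nil =>
    show h ≤ val χ g'
    rw [← hg]; exact hk
  | cons x k ih =>
    refine ⟨?_, hE₁ x hk.2.1, ih (g := g * x) (g' := g' * (y⁻¹ * x * y)) ?_ hk.2.2⟩
    · show h ≤ val χ g'
      rw [← hg]; exact hk.1
    · simp only [val_mul, val_inv, hg]; ring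

end aux

theorem lemx (hScale : ScaleStatement) (hKp : KpathStatement) (hTwo : TtwoStatement)
    (hOne : ToneStatement) (hShx : ShxStatement) (hHigh : HighStatement)
    (hCarr : CarrStatement) : LemxStatement := by
  intro K G _ _ j hj hnorm hFP χ a ha hapos ⟨κ₀, hκ₀⟩ hCC B hB
  obtain ⟨EK, hEKfin, hEKr, hEKinv, hEKpath⟩ := hKp K G j hj χ hCC
  set KG : Subgroup G := j.range with hKG
  obtain ⟨E, hBE, hE⟩ := hScale G hFP (B ∪ EK ∪ {a}) ((hB.union hEKfin).union (Set.finite_singleton a))
  have hEKE : EK ⊆ E := fun e he => hBE (Or.inl (Or.inr he))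
  have haE : a ∈ E := hBE (Or.inr rfl)
  refine ⟨E, fun x hx => hBE (Or.inl (Or.inl hx)), hE, ?_⟩
  have hcomm : ∀ κ ∈ KG, a * κ = κ * a := by
    rintro κ ⟨κ', rfl⟩; exact ha κ'
  -- the set of letters
  set E₁ : Set G := EK ∪ ⋃ y ∈ E, (fun e => y⁻¹ * e * y) '' EK with hE₁
  have hE₁fin : E₁.Finite := hEKfin.union (hE.fin.biUnion fun y _ => hEKfin.image _)
  have hEKE₁ : EK ⊆ E₁ := Set.subset_union_left
  have hcjE₁ : ∀ y ∈ E, ∀ e ∈ EK, y⁻¹ * e * y ∈ E₁ := fun y hy e he =>
    Or.inr (Set.mem_biUnion hy ⟨e, he, rfl⟩)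
  have hE₁K : ∀ e ∈ E₁, e ∈ KG := by
    rintro e (he | he)
    · exact hEKr e he
    · obtain ⟨y, hy, e', he', rfl⟩ := Set.mem_iUnion₂.1 he
      have := hnorm.conj_mem e' (hEKr e' he') y⁻¹
      simpa using this
  have hE₁inv : ∀ e ∈ E₁, e⁻¹ ∈ E₁ := by
    rintro e (he | he)
    · exact Or.inl (hEKinv e he)
    · obtain ⟨y, hy, e', he', rfl⟩ := Set.mem_iUnion₂.1 he
      have := hcjE₁ y hy _ (hEKinv e' he')
      convert this using 1
      group
  obtain ⟨E₂, hE₂fin, hE₂⟩ := hTwo G hFP χ KG a hcomm hapos E hE EK hEKE hEKr hEKpath E₁ hE₁fin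
    hEKE₁ hE₁K hE₁inv
  obtain ⟨E₃, hE₃fin, hE₃⟩ := hOne G χ E hE EK hEKfin hEKinv
  set E₄ : Set G := E₂ ∪ E₃ ∪ E with hE₄
  have h24 : E₂ ⊆ E₄ := fun x hx => Or.inl (Or.inl hx)
  have h34 : E₃ ⊆ E₄ := fun x hx => Or.inl (Or.inr hx)
  have hE4 : E ⊆ E₄ := fun x hx => Or.inr hx
  obtain ⟨d, hd0, hd⟩ := hShx G E hE χ E₄ ((hE₂fin.union hE₃fin).union hE.fin)
  obtain ⟨N, hN⟩ := exists_nat_gt ((d + 1) / val χ a)
  rw [div_lt_iff₀ hapos] at hN
  set b : G := a ^ N with hb
  have hvb : d + 1 < val χ b := by rw [hb, val_pow]; exact hN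
  have hbcomm : ∀ κ ∈ KG, b * κ = κ * b := fun κ hκ =>
    (Commute.pow_left (show Commute a κ from hcomm κ hκ) N)
  -- the elements `D x`
  set D : G → G := fun x => x⁻¹ * b⁻¹ * x * b with hD
  have hconj : ∀ κ ∈ KG, ∀ x : G, x * κ * x⁻¹ ∈ KG := fun κ hκ x => hnorm.conj_mem κ hκ x
  have hDcomm : ∀ x : G, ∀ κ ∈ KG, D x * κ = κ * D x := by
    intro x κ hκ
    have h1 : b * κ = κ * b := hbcomm κ hκ
    have h2 : b⁻¹ * (x * κ * x⁻¹) = (x * κ * x⁻¹) * b⁻¹ := by
      rw [inv_mul_eq_iff_eq_mul, ← mul_assoc, hbcomm _ (hconj κ hκ x), mul_inv_cancel_right]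
    calc x⁻¹ * b⁻¹ * x * b * κ = x⁻¹ * (b⁻¹ * (x * κ * x⁻¹)) * x * b := by
          rw [mul_assoc _ b κ, h1]; group
      _ = κ * (x⁻¹ * b⁻¹ * x * b) := by rw [h2]; group
  have hDcomm' : ∀ x y : G, ∀ κ ∈ KG, (y⁻¹ * D x * y) * κ = κ * (y⁻¹ * D x * y) := by
    intro x y κ hκ
    have h1 := hDcomm x (y * κ * y⁻¹) (hconj κ hκ y)
    calc y⁻¹ * D x * y * κ = y⁻¹ * (D x * (y * κ * y⁻¹)) * y := by group
      _ = κ * (y⁻¹ * D x * y) := by rw [h1]; group
  have hvD : ∀ x, val χ (D x) = 0 := by
    intro x; simp only [hD, val_mul, val_inv]; ring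
  have hDxy : ∀ x y, y⁻¹ * D x * y * D y = D (x * y) := by
    intro x y; simp only [hD]; group
  -- words
  choose w hwl hwp using hE.conn
  set W : Set (List G) := ((fun x => w (D x)) '' E) ∪
    (fun q : G × G => w (q.2⁻¹ * D q.1 * q.2)) '' (E ×ˢ E) with hW
  have hWfin : W.Finite := (hE.fin.image _).union ((hE.fin.prod hE.fin).image _)
  have hW1 : ∀ x ∈ E, w (D x) ∈ W := fun x hx => Or.inl ⟨x, hx, rfl⟩
  have hW2 : ∀ x ∈ E, ∀ y ∈ E, w (y⁻¹ * D x * y) ∈ W := fun x hx y hy =>
    Or.inr ⟨(x, y), ⟨hx, hy⟩, rfl⟩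
  have hWK : ∀ ω ∈ W, (∀ x ∈ ω, x ∈ E) ∧ ∀ κ ∈ KG, ω.prod * κ = κ * ω.prod := by
    rintro ω (⟨x, hx, rfl⟩ | ⟨⟨x, y⟩, ⟨hx, hy⟩, rfl⟩)
    · refine ⟨hwl _, fun κ hκ => ?_⟩
      simp only [hwp]; exact hDcomm x κ hκ
    · refine ⟨hwl _, fun κ hκ => ?_⟩
      simp only [hwp]; exact hDcomm' x y κ hκ
  obtain ⟨T₂, hT₂⟩ := hE₂ W hWfin hWK
  obtain ⟨T₃, hT₃⟩ := hE₃ W hWfin (fun ω hω => (hWK ω hω).1)
  set Lp : Set (List G × List G) :=
    (fun q : G × G => (w (q.2⁻¹ * D q.1 * q.2) ++ w (D q.2), w (D (q.1 * q.2)))) '' (E ×ˢ E) with hLp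
  obtain ⟨T₄, -, hT₄⟩ := hHigh G E hE χ Lp ((hE.fin.prod hE.fin).image _) (by
    rintro ℓ ⟨⟨x, y⟩, ⟨hx, hy⟩, rfl⟩
    refine ⟨fun z hz => ?_, hwl _, ?_⟩
    · rcases List.mem_append.1 hz with hz | hz
      · exact hwl _ z hz
      · exact hwl _ z hz
    · simp only [List.prod_append, hwp]; exact hDxy x y)
  obtain ⟨T₅, hT₅0, hT₅⟩ := finite_bound hE.fin (P := fun x C => InPath E (up (val χ) (-C)) 1 (w (D x)))
    (fun x hx => by
      obtain ⟨C, -, hC⟩ := path_bound (E := E) (val χ) (g := 1) (hwl (D x))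
      exact ⟨C, hC⟩)
    (fun x C C' hCC' h => h.mono le_rfl (up_mono (by linarith)))
  -- the element kappa
  obtain ⟨n, hn⟩ := exists_nat_gt ((max (max T₂ T₃) (max T₄ T₅)) / val χ (j κ₀))
  rw [div_lt_iff₀ hκ₀] at hn
  set κ : G := (j κ₀) ^ n with hκ
  have hκK : κ ∈ KG := KG.pow_mem ⟨κ₀, rfl⟩ n
  have hvκ : max (max T₂ T₃) (max T₄ T₅) < val χ κ := by rw [hκ, val_pow]; exact hn
  have hκ2 : T₂ ≤ val χ κ := le_trans (le_trans (le_max_left _ _) (le_max_left _ _)) hvκ.le
  have hκ3 : T₃ ≤ val χ κ := le_trans (le_trans (le_max_right _ _) (le_max_left _ _)) hvκ.le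
  have hκ4 : T₄ ≤ val χ κ := le_trans (le_trans (le_max_left _ _) (le_max_right _ _)) hvκ.le
  have hκ5 : T₅ ≤ val χ κ := le_trans (le_trans (le_max_right _ _) (le_max_right _ _)) hvκ.le
  obtain ⟨k, hkp, hk⟩ := hEKpath κ hκK
  have hk0 : InPath EK (up (val χ) 0) 1 k := by
    rwa [min_eq_left (le_trans hT₅0 hκ5)] at hk
  have hkE : InPath E (up (val χ) 0) 1 k := hk0.mono hEKE le_rfl
  -- the words p
  set p : G → List G := fun x => x :: (k ++ w (D x) ++ rv k) with hp
  have hpprod : ∀ x, (p x).prod = b⁻¹ * x * b := by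
    intro x
    simp only [hp, List.prod_cons, List.prod_append, rv_prod, hkp, hwp]
    have h1 := hDcomm x κ hκK
    rw [← h1, mul_inv_cancel_right]
    simp only [hD]; group
  have hpath : ∀ x ∈ E, InPath E (up (val χ) (min 0 (val χ x) + val χ b)) b (p x) := by
    intro x hx
    have m1 := min_le_left 0 (val χ x)
    have m2 := min_le_right 0 (val χ x)
    refine ⟨?_, hx, ?_⟩
    · show min 0 (val χ x) + val χ b ≤ val χ b
      linarith
    · rw [inPath_append, inPath_append]
      refine ⟨⟨?_, ?_⟩, ?_⟩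
      · have h1 := hkE.translate (b * x) (Z' := up (val χ) (min 0 (val χ x) + val χ b)) (by
          intro z hz
          show min 0 (val χ x) + val χ b ≤ val χ (b * x * z)
          have hz' : 0 ≤ val χ z := hz
          simp only [val_mul]; linarith)
        rwa [mul_one] at h1
      · have h1 := (hT₅ x hx).translate (b * x * k.prod)
          (Z' := up (val χ) (min 0 (val χ x) + val χ b)) (by
          intro z hz
          show min 0 (val χ x) + val χ b ≤ val χ (b * x * k.prod * z)
          have hz' : -T₅ ≤ val χ z := hz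
          simp only [val_mul, hkp]; linarith)
        rwa [mul_one] at h1
      · have h1 := hkE.translate (b * x * D x) (Z' := up (val χ) (min 0 (val χ x) + val χ b)) (by
          intro z hz
          show min 0 (val χ x) + val χ b ≤ val χ (b * x * D x * z)
          have hz' : 0 ≤ val χ z := hz
          simp only [val_mul, hvD]; linarith)
        rw [mul_one] at h1
        have h2 := h1.rv hE.inv
        have h3 : b * x * D x * k.prod = b * x * (k ++ w (D x)).prod := by
          rw [List.prod_append, hwp, hkp, mul_assoc _ (D x), hDcomm x κ hκK]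
        rwa [h3] at h2
  -- the third condition
  have hwbl : ∀ x ∈ List.replicate N a, x ∈ E := by
    intro x hx
    rw [List.eq_of_mem_replicate hx]; exact haE
  have hpl : ∀ x ∈ E, ∀ z ∈ p x, z ∈ E := fun x hx => (hpath x hx).letters
  obtain ⟨C₁, hC₁0, hC₁⟩ := finite_bound hE.fin
    (P := fun x C => SameHol E (up (val χ) (-C)) 1 (List.replicate N a ++ p x)
      (x :: List.replicate N a))
    (fun x hx => by
      have h1 : SameHol E Set.univ 1 (List.replicate N a ++ p x) (x :: List.replicate N a) := by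
        refine hE.sameHol ?_ ?_ ?_
        · intro z hz
          rcases List.mem_append.1 hz with hz | hz
          · exact hwbl z hz
          · exact hpl x hx z hz
        · intro z hz
          rcases List.mem_cons.1 hz with rfl | hz
          · exact hx
          · exact hwbl z hz
        · rw [List.prod_append, hpprod, List.prod_cons, List.prod_replicate, ← hb]; group
      obtain ⟨F, hF, -, hF2⟩ := hCarr G E _ _ _ _ h1
      obtain ⟨C, -, hC⟩ := exists_bound (val χ) hF
      exact ⟨C, hF2.mono le_rfl hC⟩)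
    (fun x C C' hCC' h => h.mono le_rfl (up_mono (by linarith)))
  obtain ⟨C₂, hC₂0, hC₂⟩ := path_bound (E := E) (val χ) (g := 1) hwbl
  refine ⟨b, List.replicate N a, p, 1, max C₁ C₂, one_pos, le_trans hC₁0 (le_max_left _ _),
    by rw [List.prod_replicate], hC₂.mono le_rfl (up_mono (by
      have := le_max_right C₁ C₂; linarith)), ?_, ?_, ?_⟩
  · intro x hx
    refine ⟨hpprod x, (hpath x hx).mono le_rfl (up_mono ?_)⟩
    linarith
  · intro x hx y hy hxy
    set h : ℝ := min (min 0 (val χ x)) (val χ (x * y)) + val χ b with hh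
    have m1 : h ≤ val χ b := by
      have := (min_le_left (min 0 (val χ x)) (val χ (x * y))).trans (min_le_left _ _)
      linarith
    have m2 : h ≤ val χ (b * x) := by
      have := (min_le_left (min 0 (val χ x)) (val χ (x * y))).trans (min_le_right _ _)
      rw [val_mul]; linarith
    have m3 : h ≤ val χ (b * x * y) := by
      have := (min_le_right (min 0 (val χ x)) (val χ (x * y)))
      have e1 : val χ (b * x * y) = val χ b + val χ (x * y) := by rw [mul_assoc, val_mul]
      rw [e1]; linarith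
    have m4 : h ≤ min 0 (val χ x) + val χ b := by
      have := (min_le_left (min 0 (val χ x)) (val χ (x * y)))
      linarith
    have m5 : h ≤ min 0 (val χ (x * y)) + val χ b := by
      have h1 := (min_le_right (min 0 (val χ x)) (val χ (x * y)))
      have h2 := (min_le_left (min 0 (val χ x)) (val χ (x * y))).trans (min_le_left _ _)
      have := le_min h2 h1
      linarith
    -- the two paths
    have P1 : InPath E (up (val χ) h) b (p x ++ p y) := by
      rw [inPath_append]
      refine ⟨(hpath x hx).mono le_rfl (up_mono m4), ?_⟩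
      have h1 := (hpath y hy).translate x (Z' := up (val χ) h) (by
        intro z hz
        have hz' : min 0 (val χ y) + val χ b ≤ val χ z := hz
        show h ≤ val χ (x * z)
        have h2 : min (min 0 (val χ x)) (val χ (x * y)) ≤ min (val χ x) (val χ x + val χ y) := by
          refine le_min ?_ ?_
          · exact (min_le_left _ _).trans (min_le_right _ _)
          · have e1 := val_mul χ x y
            rw [← e1]; exact min_le_right _ _
        have h3 : min (val χ x) (val χ x + val χ y) = val χ x + min 0 (val χ y) := by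
          rw [← min_add_add_left]; simp
        rw [val_mul]
        linarith)
      have h4 : x * b = b * (p x).prod := by rw [hpprod]; group
      rwa [h4] at h1
    have P2 : InPath E (up (val χ) h) b (p (x * y)) := (hpath _ hxy).mono le_rfl (up_mono m5)
    have key : SameHol E₄ (up (val χ) h) b (p x ++ p y) (p (x * y)) := by
      have kEK : InPath EK (up (val χ) 0) 1 k := hk0
      -- S1
      have S1 : SameHol E₄ (up (val χ) h) (b * x) (k ++ w (D x) ++ rv k ++ [y])
          ([y] ++ cj y k ++ w (y⁻¹ * D x * y) ++ rv (cj y k)) := by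
        refine (hT₃ h (b * x) k _ (hW1 x hx) _ (hW2 x hx y hy) y hy ?_ ?_ hk0 ?_ m2 m3 ?_ ?_).mono
          h34 le_rfl
        · rw [hwp, hwp]
        · intro e he
          rw [hwp]; exact hDcomm x e (hEKr e he)
        · rw [hkp]; exact hκ3
        · rw [hwp, val_mul, hvD, add_zero]; exact m2
        · rw [hwp, val_mul, val_mul, hvD, add_zero, ← val_mul]; exact m3
      have hcjp : InPath E₁ (up (val χ) 0) 1 (cj y k) := cj_path χ y (hcjE₁ y hy) rfl hk0
      have hvxy : val χ (y⁻¹ * D x * y) = 0 := by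
        simp only [val_mul, val_inv, hvD]; ring
      have S2 : SameHol E₄ (up (val χ) h) (b * x * y)
          (cj y k ++ w (y⁻¹ * D x * y) ++ rv (cj y k)) (k ++ w (y⁻¹ * D x * y) ++ rv k) := by
        refine (hT₂ h (b * x * y) _ _ _ (hW2 x hx y hy) _ (hW2 x hx y hy) rfl hcjp
          (hk0.mono hEKE₁ le_rfl) ?_ ?_ m3 ?_).mono h24 le_rfl
        · rw [cj_prod, hkp]
          simp only [val_mul, val_inv]
          linarith
        · rw [hkp]; exact hκ2
        · rw [hwp, val_mul, hvxy, add_zero]; exact m3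
      have S3 : SameHol E₄ (up (val χ) h) (b * x * y * κ * (y⁻¹ * D x * y)) (rv k ++ k) [] := by
        have h1 := hkE.translate (b * x * y * (y⁻¹ * D x * y)) (Z' := up (val χ) h) (by
          intro z hz
          have hz' : 0 ≤ val χ z := hz
          show h ≤ val χ (b * x * y * (y⁻¹ * D x * y) * z)
          rw [val_mul, val_mul _ (b * x * y), hvxy]; linarith)
        rw [mul_one] at h1
        have h2 := h1.rv hE.inv
        have h3 := sameHol_cancel hE.one hE.inv h2
        rw [rv_rv] at h3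
        have h4 : b * x * y * (y⁻¹ * D x * y) * k.prod =
            b * x * y * κ * (y⁻¹ * D x * y) := by
          rw [hkp, mul_assoc (b * x * y), hDcomm' x y κ hκK, ← mul_assoc]
        rw [h4] at h3
        exact h3.mono hE4 le_rfl
      have S4 : SameHol E₄ (up (val χ) h) (b * x * y * κ)
          (w (y⁻¹ * D x * y) ++ w (D y)) (w (D (x * y))) := by
        refine (hT₄ (w (y⁻¹ * D x * y) ++ w (D y), w (D (x * y))) ⟨(x, y), ⟨hx, hy⟩, rfl⟩ h
          (b * x * y * κ) ?_).mono hE4 le_rfl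
        rw [val_mul]; linarith
      -- assembly
      have A1 : SameHol E₄ (up (val χ) h) b
          ([x] ++ (k ++ w (D x) ++ rv k ++ [y]) ++ (k ++ w (D y) ++ rv k))
          ([x] ++ ([y] ++ cj y k ++ w (y⁻¹ * D x * y) ++ rv (cj y k)) ++
            (k ++ w (D y) ++ rv k)) := by
        refine SameHol.mid (by simpa using S1) ?_
        simp only [List.prod_append, List.prod_singleton, rv_prod, cj_prod, hwp, hkp]
        have h1 := hDcomm x κ hκK
        rw [← h1]
        have h2 : y⁻¹ * κ * y * (y⁻¹ * D x * y) = y⁻¹ * (κ * D x) * y := by group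
        rw [mul_assoc y, mul_assoc y, h2, ← h1]; group
      have A2 : SameHol E₄ (up (val χ) h) b
          ([x] ++ ([y] ++ cj y k ++ w (y⁻¹ * D x * y) ++ rv (cj y k)) ++
            (k ++ w (D y) ++ rv k))
          ([x] ++ [y] ++ (k ++ w (y⁻¹ * D x * y) ++ rv k) ++ (k ++ w (D y) ++ rv k)) := by
        have h1 : SameHol E₄ (up (val χ) h) b
            (([x] ++ [y]) ++ (cj y k ++ w (y⁻¹ * D x * y) ++ rv (cj y k)) ++
              (k ++ w (D y) ++ rv k))
            (([x] ++ [y]) ++ (k ++ w (y⁻¹ * D x * y) ++ rv k) ++ (k ++ w (D y) ++ rv k)) := by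
          refine SameHol.mid (by simpa [mul_assoc] using S2) ?_
          simp only [List.prod_append, rv_prod, cj_prod, hwp, hkp]
          have h2 := hDcomm' x y κ hκK
          have h3 := hDcomm' x y (y⁻¹ * κ * y) (by
            have := hconj κ hκK y⁻¹
            simpa using this)
          rw [← h2, ← h3, mul_inv_cancel_right, mul_inv_cancel_right]
        simpa [List.append_assoc] using h1
      have A3 : SameHol E₄ (up (val χ) h) b
          ([x] ++ [y] ++ (k ++ w (y⁻¹ * D x * y) ++ rv k) ++ (k ++ w (D y) ++ rv k))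
          ([x] ++ [y] ++ (k ++ (w (y⁻¹ * D x * y) ++ w (D y)) ++ rv k)) := by
        have h1 : SameHol E₄ (up (val χ) h) b
            (([x] ++ [y] ++ k ++ w (y⁻¹ * D x * y)) ++ (rv k ++ k) ++ (w (D y) ++ rv k))
            (([x] ++ [y] ++ k ++ w (y⁻¹ * D x * y)) ++ [] ++ (w (D y) ++ rv k)) := by
          refine SameHol.mid ?_ (by simp)
          have h2 : b * ([x] ++ [y] ++ k ++ w (y⁻¹ * D x * y)).prod =
              b * x * y * κ * (y⁻¹ * D x * y) := by
            simp only [List.prod_append, List.prod_singleton, hwp, hkp, mul_assoc]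
          rw [h2]; exact S3
        simpa [List.append_assoc] using h1
      have A4 : SameHol E₄ (up (val χ) h) b
          ([x] ++ [y] ++ (k ++ (w (y⁻¹ * D x * y) ++ w (D y)) ++ rv k))
          ([x] ++ [y] ++ (k ++ w (D (x * y)) ++ rv k)) := by
        have h1 : SameHol E₄ (up (val χ) h) b
            (([x] ++ [y] ++ k) ++ (w (y⁻¹ * D x * y) ++ w (D y)) ++ rv k)
            (([x] ++ [y] ++ k) ++ w (D (x * y)) ++ rv k) := by
          refine SameHol.mid ?_ ?_
          · have h2 : b * ([x] ++ [y] ++ k).prod = b * x * y * κ := by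
              simp only [List.prod_append, List.prod_singleton, hkp, mul_assoc]
            rw [h2]; exact S4
          · simp only [List.prod_append, hwp]; exact hDxy x y
        simpa [List.append_assoc] using h1
      have A5 : SameHol E₄ (up (val χ) h) b ([x] ++ [y] ++ (k ++ w (D (x * y)) ++ rv k))
          (p (x * y)) := by
        intro H _ c hc
        show c b (b * x) * (c (b * x) (b * x * y) * hol c (b * x * y) (k ++ w (D (x * y)) ++ rv k)) =
          c b (b * (x * y)) * hol c (b * (x * y)) (k ++ w (D (x * y)) ++ rv k)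
        rw [← mul_assoc, hc b m1 (b * x) m2 (b * x * y) m3 (hE4 (by simpa using hx))
          (hE4 (by rw [inv_mul_cancel_left]; exact hy)) (hE4 (by
            rw [mul_assoc b x y, inv_mul_cancel_left]; exact hxy)), mul_assoc b x y]
      have A0 : p x ++ p y =
          [x] ++ (k ++ w (D x) ++ rv k ++ [y]) ++ (k ++ w (D y) ++ rv k) := by
        simp [hp]
      rw [A0]
      exact (((A1.trans A2).trans A3).trans A4).trans A5
    exact (hd h b _ _ P1 P2 key).mono le_rfl (up_mono (by rw [hh]; linarith))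
  · intro x hx
    exact (hC₁ x hx).mono le_rfl (up_mono (by have := le_max_left C₁ C₂; linarith))

end Pool.Agent.Lib.MP_b1a3a4_al.MVS.HO.H45
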