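import Pool.Agent.Lib.MP_b1a3a4_al.MVS.HO.Iface

/-!
# Module RETR (10.7), backup
-/

set_option linter.all false

namespace Pool.Agent.Lib.MP_b1a3a4_al.MVS.HO.H45

theorem retr : RetrStatement := by
  intro G G' _ _ Y Y' ρ ι hρ hι hcρ hcι hB
  obtain ⟨B, hBfin, hB⟩ := hB
  constructor
  · intro hcsc E hE
    obtain ⟨E₁, hE₁, hE₁'⟩ := hcι E hE
    obtain ⟨E₂, hE₂, hE₂'⟩ := hcsc E₁ hE₁
    obtain ⟨E₃, hE₃, hE₃'⟩ := hcρ (E₂ ∪ E₁) (hE₂.union hE₁)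
    set E' : Set G' := {1} ∪ E ∪ E₃ ∪ B ∪ (fun x => x⁻¹) '' B ∪
      Set.image2 (fun x y => x * y) E B with hE'
    have h1 : (1 : G') ∈ E' := by simp [hE']
    have hEE' : E ⊆ E' := fun x hx => by simp [hE', hx]
    have h3E' : E₃ ⊆ E' := fun x hx => by simp [hE', hx]
    have hBE' : B ⊆ E' := fun x hx => by simp [hE', hx]
    have hBiE' : ∀ x ∈ B, x⁻¹ ∈ E' := fun x hx =>
      Or.inl (Or.inr ⟨x, hx, rfl⟩)
    have hEB : ∀ x ∈ E, ∀ y ∈ B, x * y ∈ E' := fun x hx y hy => Or.inr ⟨x, hx, y, hy, rfl⟩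
    refine ⟨E', ((((Set.finite_singleton _).union hE).union hE₃).union hBfin).union
      (hBfin.image _) |>.union (hE.image2 _ hBfin), ?_⟩
    intro H _ c hc
    obtain ⟨f, hf⟩ := hE₂' H (fun x y => c (ρ x) (ρ y)) (by
      intro g hg h hh k hk h1 h2 h3
      exact hc _ (hρ g hg) _ (hρ h hh) _ (hρ k hk) (h3E' (hE₃' g hg h hh (Or.inl h1)))
        (h3E' (hE₃' h hh k hk (Or.inl h2))) (h3E' (hE₃' g hg k hk (Or.inl h3))))
    refine ⟨fun y => f (ι y) * (c y (ρ (ι y)))⁻¹, ?_⟩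
    intro y hy z hz hyz
    have hιyz := hE₁' y hy z hz hyz
    have e1 : c (ρ (ι y)) (ρ (ι z)) = (f (ι y))⁻¹ * f (ι z) :=
      hf (ι y) (hι y hy) (ι z) (hι z hz) hιyz
    have m1 : y⁻¹ * ρ (ι y) ∈ E' := hBE' (hB y hy)
    have m2 : z⁻¹ * ρ (ι z) ∈ E' := hBE' (hB z hz)
    have m3 : (ρ (ι y))⁻¹ * ρ (ι z) ∈ E' :=
      h3E' (hE₃' _ (hι y hy) _ (hι z hz) (Or.inr hιyz))
    have m4 : y⁻¹ * ρ (ι z) ∈ E' := by
      have := hEB _ hyz _ (hB z hz)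
      have h : y⁻¹ * z * (z⁻¹ * ρ (ι z)) = y⁻¹ * ρ (ι z) := by group
      rwa [h] at this
    have m5 : (ρ (ι z))⁻¹ * z ∈ E' := by
      have := hBiE' _ (hB z hz)
      have h : (z⁻¹ * ρ (ι z))⁻¹ = (ρ (ι z))⁻¹ * z := by group
      rwa [h] at this
    have ry := hρ _ (hι y hy)
    have rz := hρ _ (hι z hz)
    have e2 := hc y hy _ ry _ rz m1 m3 m4
    have e3 := hc y hy _ rz z hz m4 m5 (hEE' hyz)
    have e4 := hc.symm h1 hz rz m2 m5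
    rw [← e3, ← e2, e1, e4]
    show _ = (f (ι y) * (c y (ρ (ι y)))⁻¹)⁻¹ * (f (ι z) * (c z (ρ (ι z)))⁻¹)
    group
  · rintro ⟨E, hE, hconn⟩
    obtain ⟨F, hF, hF'⟩ := hcρ E hE
    refine ⟨F ∪ B ∪ (fun x => x⁻¹) '' B, (hF.union hBfin).union (hBfin.image _), ?_⟩
    intro y hy z hz
    have h1 : Conn (F ∪ B ∪ (fun x => x⁻¹) '' B) Y' y (ρ (ι y)) :=
      Relation.ReflTransGen.single ⟨hy, hρ _ (hι y hy), Or.inl (Or.inr (hB y hy))⟩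
    have h3 : Conn (F ∪ B ∪ (fun x => x⁻¹) '' B) Y' (ρ (ι z)) z :=
      Relation.ReflTransGen.single ⟨hρ _ (hι z hz), hz, Or.inr ⟨_, hB z hz, by group⟩⟩
    have h2 : ∀ u v, Conn E Y u v → Conn (F ∪ B ∪ (fun x => x⁻¹) '' B) Y' (ρ u) (ρ v) := by
      intro u v h
      induction h with
      | refl => exact Conn.rfl'
      | tail _ hab ih =>
        exact Relation.ReflTransGen.tail ih ⟨hρ _ hab.1, hρ _ hab.2.1,
          Or.inl (Or.inl (hF' _ hab.1 _ hab.2.1 hab.2.2))⟩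
    exact (h1.trans (h2 _ _ (hconn _ (hι y hy) _ (hι z hz)))).trans h3

end Pool.Agent.Lib.MP_b1a3a4_al.MVS.HO.H45
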