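import Pool.Agent.Lib.MP_b1a3a4_al.MVS.HO.Iface
import Pool.Agent.Lib.MP_b1a3a4_al.MVS.H45.Step

/-!
# Module STEP2 (10.31)
-/

set_option linter.all false

namespace Pool.Agent.Lib.MP_b1a3a4_al.MVS.HO.H45

open MVS.H45

lemma fpn_mono (h6 : FpresStatement) {G : Type} [Group G] {m n : ℕ} (hmn : m ≤ n)
    (h : FPn ℤ G n) : FPn ℤ G m := by
  obtain ⟨F, hF⟩ := (h6 _ n _).1 h
  exact (h6 _ m _).2 ⟨F, fun q hq => hF q (hq.trans hmn)⟩

lemma setup_mono (h6 : FpresStatement) {m n : ℕ} (hmn : m ≤ n) {I : Type} [Fintype I]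
    [DecidableEq I] {L : I → Type} [∀ i, Group (L i)] {U : Finset I}
    {S : Subgroup (∀ i, L i)} (hS : Setup ℤ n U S) : Setup ℤ m U S where
  supp := hS.supp
  a1 := fun j hj => fpn_mono h6 hmn (hS.a1 j hj)
  a2 := fun J hJ hJ' => hS.a2 J hJ (hJ'.trans hmn)
  a3 := hS.a3

lemma condB_mono {m n : ℕ} (hmn : m ≤ n) {I : Type} [Fintype I]
    [DecidableEq I] {L : I → Type} [∀ i, Group (L i)] {U : Finset I}
    {S : Subgroup (∀ i, L i)} {χ : Chr S} (h : CondB n U S χ) : CondB m U S χ :=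
  fun J hJ hJ' => h J hJ (hJ'.trans hmn)

/-- an element of positive value -/
lemma exists_pos {n : ℕ} {I : Type} [Fintype I]
    [DecidableEq I] {L : I → Type} [∀ i, Group (L i)] {U : Finset I}
    {S : Subgroup (∀ i, L i)} {χ : Chr S} (h : CondB n U S χ) : ∃ s : S, 0 < val χ s := by
  obtain ⟨s, -, hs⟩ := h ∅ (Finset.empty_subset _) (by simp)
  rcases lt_or_gt_of_ne hs with h' | h'
  · exact ⟨s⁻¹, by rw [val_inv]; linarith⟩
  · exact ⟨s, h'⟩

theorem step2 (h1 : FpUpStatement) (h2 : FinIndStatement) (h3 : Hemi2Statement)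
    (h4 : SigpStatement) (h5 : CaseA2Statement) (h6 : SetupUpStatement)
    (h7 : FpresStatement) : Step2Statement := by
  intro I _ _ L _ U S hS hFP i hi t₀ ht₀ hc
  set t : ∀ i, L i := Pi.mulSingle i t₀ with ht
  have sd := stepData S i t₀ ht₀ hc
  set S' : Subgroup (∀ i, L i) := S ⊔ Subgroup.zpowers t with hS'def
  have hle : S ≤ S' := le_sup_left
  have htS' : t ∈ S' := (le_sup_right : Subgroup.zpowers t ≤ S') (Subgroup.mem_zpowers t)
  have hpiS' : S' ≤ piS U S := by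
    refine sup_le (le_piS U S hS.supp) ?_
    rw [Subgroup.zpowers_le]
    exact mulSingle_mem_piS U S i hi t₀ ht₀
  obtain ⟨hset', hpi, hpr⟩ := h6 ℤ 2 I L U S S' hS hle hpiS'
  -- the condition (b) for the extended characters
  have hcond : ∀ (χ : Chr S), CondB 2 U S χ → ∀ χ' : Chr S',
      (∀ (s) (hs : s ∈ S), val χ' ⟨s, hle hs⟩ = val χ ⟨s, hs⟩) → CondB 2 U S' χ' := by
    intro χ hχ χ' hχ' J hJ hJn
    obtain ⟨s, hs1, hs2⟩ := hχ J hJ hJn
    exact ⟨⟨s.1, hle s.2⟩, hs1, by rw [hχ' s.1 s.2]; exact hs2⟩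
  by_cases hfin : ∃ e : ℤ, e ≠ 0 ∧ t ^ e ∈ S
  · -- finite case
    have hnorm : (S.subgroupOf S').Normal := by
      constructor
      intro x hx g
      obtain ⟨s, hs, k, hk⟩ := mem_sup_zpowers S t sd.n1 sd.n2 g.1 g.2
      show g.1 * x.1 * g.1⁻¹ ∈ S
      rw [hk]
      have : s * t ^ k * x.1 * (s * t ^ k)⁻¹ = s * (t ^ k * x.1 * (t ^ k)⁻¹) * s⁻¹ := by group
      rw [this]
      exact S.mul_mem (S.mul_mem hs (conj_zpow_mem S t sd.n1 sd.n2 k _ hx)) (S.inv_mem hs)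
    obtain ⟨e, he, hte⟩ := hfin
    have hQ : Finite (S' ⧸ S.subgroupOf S') := by
      have hpos : 0 < |e| := abs_pos.2 he
      let g : Fin (|e|.toNat) → S' ⧸ S.subgroupOf S' := fun m =>
        QuotientGroup.mk ((⟨t, htS'⟩ : S') ^ (m : ℕ))
      refine Finite.of_surjective g ?_
      intro x
      obtain ⟨y, rfl⟩ := QuotientGroup.mk_surjective x
      obtain ⟨s, hs, k, hk⟩ := mem_sup_zpowers S t sd.n1 sd.n2 y.1 y.2
      have h1 : 0 ≤ k % |e| := Int.emod_nonneg _ hpos.ne'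
      have h2 : k % |e| < |e| := Int.emod_lt_of_pos _ hpos
      refine ⟨⟨(k % |e|).toNat, by omega⟩, ?_⟩
      rw [QuotientGroup.eq]
      show ((((⟨t, htS'⟩ : S') ^ ((k % |e|).toNat))⁻¹ * y : S') : ∀ i, L i) ∈ S
      have h3 : ((((⟨t, htS'⟩ : S') ^ ((k % |e|).toNat))⁻¹ * y : S') : ∀ i, L i) =
          t ^ (-(k % |e|)) * s * (t ^ (-(k % |e|)))⁻¹ * t ^ (-(k % |e|) + k) := by
        have h4 : ((((⟨t, htS'⟩ : S') ^ ((k % |e|).toNat))⁻¹ * y : S') : ∀ i, L i) =
            (t ^ ((k % |e|).toNat))⁻¹ * y.1 := rfl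
        rw [h4, hk, ← zpow_natCast, Int.toNat_of_nonneg h1, zpow_add, zpow_neg]
        group
      rw [h3]
      refine S.mul_mem (conj_zpow_mem S t sd.n1 sd.n2 _ _ hs) ?_
      have h5 : -(k % |e|) + k = |e| * (k / |e|) := by
        have := Int.emod_add_mul_ediv k |e|
        linarith
      rw [h5, zpow_mul]
      refine S.zpow_mem ?_ _
      rcases abs_choice e with h | h
      · rw [h]; exact hte
      · rw [h, zpow_neg]; exact S.inv_mem hte
    have hses : SES (Subgroup.inclusion hle) (QuotientGroup.mk' (S.subgroupOf S')) := by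
      refine ⟨Subgroup.inclusion_injective hle, QuotientGroup.mk'_surjective _, fun g => ?_⟩
      rw [QuotientGroup.mk'_apply, QuotientGroup.eq_one_iff]
      constructor
      · intro hg; exact ⟨⟨g.1, hg⟩, rfl⟩
      · rintro ⟨s, rfl⟩; exact s.2
    have hfi := h2 S S' _ (Subgroup.inclusion hle) _ hses
    refine ⟨hfi.1.1 hFP, ?_⟩
    intro hB' χ hχ
    by_cases hA' : ∃ i ∈ U, ∃ (x : L i) (h : Pi.mulSingle i x ∈ S), val χ ⟨_, h⟩ ≠ 0
    · exact h5 I L U S hS hFP χ hχ hA'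
    · push Not at hA'
      obtain ⟨χ', hχ'⟩ := extend_chr S i t₀ ht₀ hc χ (fun x h => hA' i hi x h)
      have hP := hB' χ' (hcond χ hχ χ' hχ')
      obtain ⟨s, hs⟩ := exists_pos hχ
      have := (hfi.2 χ' ⟨s, by
        have := hχ' s.1 s.2
        rw [show Subgroup.inclusion hle s = ⟨s.1, hle s.2⟩ from rfl, this]
        exact hs⟩).2 hP
      have hres : χ'.res (Subgroup.inclusion hle) = χ := by
        ext s
        exact hχ' (Additive.toMul s).1 (Additive.toMul s).2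
      rwa [hres] at this
  · -- infinite case
    have hinf : ∀ e : ℤ, t ^ e ∈ S → e = 0 := by
      intro e he
      by_contra h
      exact hfin ⟨e, h, he⟩
    obtain ⟨ψ, hψ, hψt⟩ := exists_psi S i t₀ ht₀ hc hinf
    have hψS : ∀ (s) (hs : s ∈ S), ψ ⟨s, hle hs⟩ = 1 := fun s hs =>
      (hψ.ex _).2 ⟨⟨s, hs⟩, rfl⟩
    have hFP' : FPres S' := h1 S S' (Subgroup.inclusion hle) ψ hψ hFP
    refine ⟨hFP', ?_⟩
    intro hB' χ hχ
    by_cases hA' : ∃ i ∈ U, ∃ (x : L i) (h : Pi.mulSingle i x ∈ S), val χ ⟨_, h⟩ ≠ 0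
    · exact h5 I L U S hS hFP χ hχ hA'
    · push Not at hA'
      obtain ⟨χ', hχ'⟩ := extend_chr S i t₀ ht₀ hc χ (fun x h => hA' i hi x h)
      have hres : χ'.res (Subgroup.inclusion hle) = χ := by
        ext s
        exact hχ' (Additive.toMul s).1 (Additive.toMul s).2
      obtain ⟨s, hs⟩ := exists_pos hχ
      have hcsc := h3 S S' (Subgroup.inclusion hle) ψ hψ hFP hFP' χ' ⟨s, by
        have := hχ' s.1 s.2
        rw [show Subgroup.inclusion hle s = ⟨s.1, hle s.2⟩ from rfl, this]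
        exact hs⟩ (fun lam => by
          refine hB' _ (hcond χ hχ _ ?_)
          intro s hs
          rw [val_add, val_smul, hχ' s hs, val_intChr, hψS s hs]
          simp)
      rw [hres] at hcsc
      exact ⟨h4 I L U S (setup_mono h7 one_le_two hS) χ (condB_mono one_le_two hχ), hcsc⟩

end Pool.Agent.Lib.MP_b1a3a4_al.MVS.HO.H45
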